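import Pool.Agent.N993.WU.Asm

set_option autoImplicit false

namespace Pool.Agent.N993.WU

open Pool.Agent.N993.WT (flip SphericalDiagram DR RW Gen word)

/-- No subword of length `μ` occurs at two different places of the words `g t`, and no subword of
length `μ` is the inverse of a subword. -/
def NoRep {n : ℕ} {I : Type} {ℓ : I → ℕ} (g : ∀ t, RW n (ℓ t)) (μ : ℕ) : Prop :=
  ∀ (t t' : I) (i i' : ℕ) (h : i + μ ≤ ℓ t) (h' : i' + μ ≤ ℓ t'),
    ((∀ k (hk : k < μ), (g t).1 ⟨i + k, by omega⟩ = (g t').1 ⟨i' + k, by omega⟩) →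
      t = t' ∧ i = i') ∧
    ¬ ∀ k (hk : k < μ), (g t).1 ⟨i + k, by omega⟩ = flip ((g t').1 ⟨i' + (μ - 1 - k), by omega⟩)

theorem flip_flip {X : Type} (y : X × Bool) : flip (flip y) = y := by
  simp [Pool.Agent.N993.WT.flip]

theorem flip_inj {X : Type} {y z : X × Bool} (h : flip y = flip z) : y = z := by
  rw [← flip_flip y, h, flip_flip]

section

variable {n m : ℕ} {c : Fin m → ℕ} (hc : ∀ j, 0 < c j) (x₀ : Fin n × Bool)
    (U : Fin m → List (Fin n × Bool)) (v : ((j : Fin m) × Fin (c j)) → List (Fin n × Bool))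
    {ℓ : ((j : Fin m) × Fin (c j)) → ℕ} (g : ∀ t, RW n (ℓ t))

theorem wd_true (s) (i : ℕ) (h : i < ℓ s) : (dat hc x₀ U v g).wd s true i = (g s).1 ⟨i, h⟩ := by
  simp [Dat.wd, ow, dat, h]

theorem wd_false (s) (i : ℕ) (h : i < ℓ s) :
    (dat hc x₀ U v g).wd s false i = flip ((g s).1 ⟨ℓ s - 1 - i, by omega⟩) := by
  have h1 : ℓ s - 1 - i < ℓ s := by omega
  simp [Dat.wd, ow, dat, h1]

theorem pf_of_noRep (μ : ℕ) (hg : NoRep g μ) : (dat hc x₀ U v g).PF μ := by
  intro s τ i s' τ' i' h h' hne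
  change i + μ ≤ ℓ s at h
  change i' + μ ≤ ℓ s' at h'
  by_contra hcon
  push Not at hcon
  have hcon' : ∀ t < μ, (dat hc x₀ U v g).wd s τ (i + t) = (dat hc x₀ U v g).wd s' τ' (i' + t) := by
    intro t ht
    have := hcon t ht
    simpa using this
  cases τ <;> cases τ'
  · -- false false
    have := (hg s s' (ℓ s - i - μ) (ℓ s' - i' - μ) (by omega) (by omega)).1 (by
      intro k hk
      have h1 := hcon' (μ - 1 - k) (by omega)
      rw [wd_false hc x₀ U v g s _ (by omega), wd_false hc x₀ U v g s' _ (by omega)] at h1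
      have h2 := flip_inj h1
      have e1 : (⟨ℓ s - 1 - (i + (μ - 1 - k)), by omega⟩ : Fin (ℓ s)) =
          ⟨ℓ s - i - μ + k, by omega⟩ := by
        apply Fin.ext; simp; omega
      have e2 : (⟨ℓ s' - 1 - (i' + (μ - 1 - k)), by omega⟩ : Fin (ℓ s')) =
          ⟨ℓ s' - i' - μ + k, by omega⟩ := by
        apply Fin.ext; simp; omega
      rw [e1, e2] at h2
      exact h2)
    obtain ⟨h3, h4⟩ := this
    subst h3
    apply hne
    have : i = i' := by omega
    rw [this]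
  · -- false true
    refine (hg s' s i' (ℓ s - i - μ) (by omega) (by omega)).2 ?_
    intro k hk
    have h1 := hcon' k hk
    rw [wd_false hc x₀ U v g s _ (by omega), wd_true hc x₀ U v g s' _ (by omega)] at h1
    rw [← h1]
    have e1 : (⟨ℓ s - 1 - (i + k), by omega⟩ : Fin (ℓ s)) =
        ⟨ℓ s - i - μ + (μ - 1 - k), by omega⟩ := by
      apply Fin.ext; simp; omega
    rw [e1]
  · -- true false
    refine (hg s s' i (ℓ s' - i' - μ) (by omega) (by omega)).2 ?_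
    intro k hk
    have h1 := hcon' k hk
    rw [wd_true hc x₀ U v g s _ (by omega), wd_false hc x₀ U v g s' _ (by omega)] at h1
    rw [h1]
    have e1 : (⟨ℓ s' - 1 - (i' + k), by omega⟩ : Fin (ℓ s')) =
        ⟨ℓ s' - i' - μ + (μ - 1 - k), by omega⟩ := by
      apply Fin.ext; simp; omega
    rw [e1]
  · -- true true
    have := (hg s s' i i' (by omega) (by omega)).1 (by
      intro k hk
      have h1 := hcon' k hk
      rw [wd_true hc x₀ U v g s _ (by omega), wd_true hc x₀ U v g s' _ (by omega)] at h1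
      exact h1)
    obtain ⟨h3, h4⟩ := this
    subst h3
    subst h4
    exact hne rfl

theorem noRep_of_pf (μ : ℕ) (hg : (dat hc x₀ U v g).PF μ) : NoRep g μ := by
  intro s s' i i' h h'
  constructor
  · intro heq
    by_contra hne
    obtain ⟨k, hk, h1⟩ := hg s true i s' true i' h h' (by
      intro h2
      simp only [Prod.mk.injEq, true_and] at h2
      exact hne h2)
    apply h1
    rw [wd_true hc x₀ U v g s _ (by omega), wd_true hc x₀ U v g s' _ (by omega)]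
    exact heq k hk
  · intro heq
    obtain ⟨k, hk, h1⟩ := hg s true i s' false (ℓ s' - i' - μ) h
      (by change ℓ s' - i' - μ + μ ≤ ℓ s'; omega) (by simp)
    apply h1
    rw [wd_true hc x₀ U v g s _ (by omega), wd_false hc x₀ U v g s' _ (by omega), heq k hk]
    have e1 : (⟨ℓ s' - 1 - (ℓ s' - i' - μ + k), by omega⟩ : Fin (ℓ s')) =
        ⟨i' + (μ - 1 - k), by omega⟩ := by
      apply Fin.ext; simp; omega
    rw [e1]

end

theorem deterministic (hD : S_DIS) (hN : S_NORM) {n m : ℕ} {c : Fin m → ℕ}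
    (hc : ∀ j, 0 < c j) (ℓ : ((j : Fin m) × Fin (c j)) → ℕ) (μ lam : ℕ) (hμ : 1 ≤ μ)
    (hℓ : ∀ t, 9 * (3 * μ + lam + 2) ≤ ℓ t) (g : ∀ t, RW n (ℓ t)) (hg : NoRep g μ)
    (U : Fin m → List (Fin n × Bool)) (v : ((j : Fin m) × Fin (c j)) → List (Fin n × Bool))
    (hU : ∀ j, CR (U j) ∧ (U j).length ≤ lam) (hv : ∀ t, CR (v t) ∧ (v t).length ≤ lam)
    (T : Set (Fin m ⊕ ((j : Fin m) × Fin (c j)))) : DR (fun e : T => rel U v g e) := by
  apply Pool.Agent.N993.WT.t_sub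
  rcases Nat.eq_zero_or_pos m with hm | hm
  · subst hm
    intro D
    obtain ⟨d⟩ := D.nonemptyD
    rcases D.cell d with j | ⟨j, k⟩
    · exact j.elim0
    · exact j.elim0
  · have h1 := (hU ⟨0, hm⟩).1.1
    let x₀ : Fin n × Bool := (U ⟨0, hm⟩)[0]
    exact dr_of_pf hD hN hc x₀ U v (fun j => (hU j).1) (fun t => (hv t).1) lam (fun j => (hU j).2)
      (fun t => (hv t).2) μ hμ hℓ g (pf_of_noRep hc x₀ U v g μ hg)

theorem rare {n m : ℕ} (hn : 2 ≤ n) {c : Fin m → ℕ}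
    (hc : ∀ j, 0 < c j) (ℓ : ((j : Fin m) × Fin (c j)) → ℕ) (μ : ℕ) (hμ : 1 ≤ μ) :
    (Nat.card {g : ∀ t, RW n (ℓ t) // ¬ NoRep g μ} : ℝ) ≤
      2 * (∑ t, (ℓ t : ℝ)) ^ 2 / (2 * n - 1) ^ μ * Nat.card (∀ t, RW n (ℓ t)) := by
  have hn0 : 0 < n := by omega
  set x₀ : Fin n × Bool := (⟨0, hn0⟩, true) with hx₀
  set b₀ : Fin m → Fin n × Bool := fun _ => x₀ with hb₀
  set a₀ : ((j : Fin m) × Fin (c j)) → Fin n × Bool := fun _ => x₀ with ha₀
  have h1 := Pool.Agent.N42.WT.t_cnt n m hn c hc b₀ a₀ ℓ μ hμ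
  have hn' : (2 : ℝ) ≤ n := by exact_mod_cast hn
  have hp : (0 : ℝ) < (2 * n - 1 : ℝ) ^ μ := pow_pos (by linarith) μ
  have h2 : (Nat.card {g : ∀ t, RW n (ℓ t) // ¬ NoRep g μ} : ℝ) ≤
      Nat.card {g : ∀ t, RW n (ℓ t) // ¬ (Pool.Agent.N993.WT.dat hc b₀ a₀ g).PF μ} := by
    rw [Nat.cast_le]
    refine Nat.card_le_card_of_injective (fun x => ⟨x.1, fun hg => ?_⟩) ?_
    · exact x.2 (noRep_of_pf hc x₀ (fun _ => []) (fun _ => []) x.1 μ
        (pf_transfer hc x₀ b₀ a₀ _ _ x.1 μ hg))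
    · intro x y hxy
      simp only [Subtype.mk.injEq] at hxy
      exact Subtype.ext hxy
  refine h2.trans ?_
  rw [div_mul_eq_mul_div, le_div_iff₀ hp]
  exact h1

end Pool.Agent.N993.WU
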