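import Pool.Agent.N993.WU.Defs
import Pool.Agent.N993.WT.Asm
import Pool.Agent.N42.WT.CNT

set_option autoImplicit false

namespace Pool.Agent.N993.WU

open Pool.Agent.N993.WT (flip SphericalDiagram DR RW Gen word)

theorem good_dat {n m : ℕ} {c : Fin m → ℕ} (hc : ∀ j, 0 < c j) (x₀ : Fin n × Bool)
    (U : Fin m → List (Fin n × Bool)) (v : ((j : Fin m) × Fin (c j)) → List (Fin n × Bool))
    (hU : ∀ j, CR (U j)) (hv : ∀ t, CR (v t))
    {ℓ : ((j : Fin m) × Fin (c j)) → ℕ} (hℓ : ∀ t, 0 < ℓ t) (g : ∀ t, RW n (ℓ t)) :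
    (dat hc x₀ U v g).Good := by
  refine ⟨hc, hℓ, fun j => (hU j).1, fun t => (hv t).1, ?_, ?_, ?_, ?_, ?_, ?_⟩
  · intro j k j' k' hk hk' h
    change k < c j at hk
    change k' < c j' at hk'
    simp only [dat, Nat.mod_eq_of_lt hk, Nat.mod_eq_of_lt hk', Sigma.mk.injEq] at h
    obtain ⟨h1, h2⟩ := h
    subst h1
    rw [heq_eq_eq, Fin.mk.injEq] at h2
    exact ⟨rfl, h2⟩
  · intro s i hi
    change i + 1 < ℓ s at hi
    have h1 : i < ℓ s := by omega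
    simp only [dat, hi, h1, dif_pos]
    exact (g s).2 ⟨i, h1⟩ ⟨i + 1, hi⟩ rfl
  · intro j i hi
    change i + 1 < (U j).length at hi
    have h1 : i < (U j).length := by omega
    simp only [dat]
    rw [List.getD_eq_getElem _ _ hi, List.getD_eq_getElem _ _ h1]
    exact (hU j).2.1 i hi
  · intro j
    have h0 := (hU j).1
    have h1 : (U j).length - 1 < (U j).length := by omega
    simp only [dat]
    rw [List.getD_eq_getElem _ _ h0, List.getD_eq_getElem _ _ h1]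
    exact (hU j).2.2 h0
  · intro j i hi
    change i + 1 < (v j).length at hi
    have h1 : i < (v j).length := by omega
    simp only [dat]
    rw [List.getD_eq_getElem _ _ hi, List.getD_eq_getElem _ _ h1]
    exact (hv j).2.1 i hi
  · intro j
    have h0 := (hv j).1
    have h1 : (v j).length - 1 < (v j).length := by omega
    simp only [dat]
    rw [List.getD_eq_getElem _ _ h0, List.getD_eq_getElem _ _ h1]
    exact (hv j).2.2 h0

theorem dr_of_pf (hD : S_DIS) (hN : S_NORM) {n m : ℕ} {c : Fin m → ℕ} (hc : ∀ j, 0 < c j)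
    (x₀ : Fin n × Bool) (U : Fin m → List (Fin n × Bool))
    (v : ((j : Fin m) × Fin (c j)) → List (Fin n × Bool))
    (hU : ∀ j, CR (U j)) (hv : ∀ t, CR (v t)) (lam : ℕ) (hU' : ∀ j, (U j).length ≤ lam)
    (hv' : ∀ t, (v t).length ≤ lam)
    {ℓ : ((j : Fin m) × Fin (c j)) → ℕ} (μ : ℕ) (hμ : 1 ≤ μ)
    (hℓ : ∀ t, 9 * (3 * μ + lam + 2) ≤ ℓ t)
    (g : ∀ t, RW n (ℓ t)) (hg : (dat hc x₀ U v g).PF μ) : DR (rel U v g) := by
  intro D hD'
  have h0 : ∀ t, 0 < ℓ t := fun t => lt_of_lt_of_le (by omega) (hℓ t)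
  obtain ⟨N, hE⟩ := hN n m c hc x₀ U v hU hv ℓ h0 g D hD'
  exact hD _ _ _ _ N (good_dat hc x₀ U v hU hv h0 g) μ lam hμ hg ⟨hU', hv'⟩ hℓ hE

theorem pf_transfer {n m : ℕ} {c : Fin m → ℕ} (hc : ∀ j, 0 < c j) (x₀ : Fin n × Bool)
    (b : Fin m → Fin n × Bool) (a : ((j : Fin m) × Fin (c j)) → Fin n × Bool)
    (U : Fin m → List (Fin n × Bool)) (v : ((j : Fin m) × Fin (c j)) → List (Fin n × Bool))
    {ℓ : ((j : Fin m) × Fin (c j)) → ℕ} (g : ∀ t, RW n (ℓ t)) (μ : ℕ)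
    (h : (Pool.Agent.N993.WT.dat hc b a g).PF μ) : (dat hc x₀ U v g).PF μ := by
  have hw : ∀ s τ i, i < ℓ s →
      (Pool.Agent.N993.WT.dat hc b a g).wd s τ i = (dat hc x₀ U v g).wd s τ i := by
    intro s τ i hi
    have h1 : ℓ s - 1 - i < ℓ s := by omega
    cases τ <;> simp [Pool.Agent.N993.WT.Dat.wd, Dat.wd, ow, dat, Pool.Agent.N993.WT.dat, hi, h1]
  intro s τ i s' τ' i' h1 h2 h3
  obtain ⟨t, ht, h4⟩ := h s τ i s' τ' i' h1 h2 h3
  refine ⟨t, ht, ?_⟩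
  change i + μ ≤ ℓ s at h1
  change i' + μ ≤ ℓ s' at h2
  rwa [← hw _ _ _ (by omega), ← hw _ _ _ (by omega)]

theorem almost_all (hD : S_DIS) (hN : S_NORM) {n m : ℕ} (hn : 2 ≤ n) {c : Fin m → ℕ}
    (hc : ∀ j, 0 < c j) (ℓ : ((j : Fin m) × Fin (c j)) → ℕ) (μ lam : ℕ) (hμ : 1 ≤ μ)
    (hℓ : ∀ t, 9 * (3 * μ + lam + 2) ≤ ℓ t) :
    (Nat.card {g : ∀ t, RW n (ℓ t) // ∃ (U : Fin m → List (Fin n × Bool))
        (v : ((j : Fin m) × Fin (c j)) → List (Fin n × Bool)),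
        (∀ j, CR (U j) ∧ (U j).length ≤ lam) ∧ (∀ t, CR (v t) ∧ (v t).length ≤ lam) ∧
        ∃ T : Set (Fin m ⊕ ((j : Fin m) × Fin (c j))), ¬ DR (fun e : T => rel U v g e)} : ℝ) ≤
      2 * (∑ t, (ℓ t : ℝ)) ^ 2 / (2 * n - 1) ^ μ * Nat.card (∀ t, RW n (ℓ t)) := by
  have hn0 : 0 < n := by omega
  set x₀ : Fin n × Bool := (⟨0, hn0⟩, true) with hx₀
  set b₀ : Fin m → Fin n × Bool := fun _ => x₀ with hb₀
  set a₀ : ((j : Fin m) × Fin (c j)) → Fin n × Bool := fun _ => x₀ with ha₀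
  have h1 := Pool.Agent.N42.WT.t_cnt n m hn c hc b₀ a₀ ℓ μ hμ
  have hn' : (2 : ℝ) ≤ n := by exact_mod_cast hn
  have hp : (0 : ℝ) < (2 * n - 1 : ℝ) ^ μ := pow_pos (by linarith) μ
  have h2 : (Nat.card {g : ∀ t, RW n (ℓ t) // ∃ (U : Fin m → List (Fin n × Bool))
        (v : ((j : Fin m) × Fin (c j)) → List (Fin n × Bool)),
        (∀ j, CR (U j) ∧ (U j).length ≤ lam) ∧ (∀ t, CR (v t) ∧ (v t).length ≤ lam) ∧
        ∃ T : Set (Fin m ⊕ ((j : Fin m) × Fin (c j))), ¬ DR (fun e : T => rel U v g e)} : ℝ) ≤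
      Nat.card {g : ∀ t, RW n (ℓ t) // ¬ (Pool.Agent.N993.WT.dat hc b₀ a₀ g).PF μ} := by
    rw [Nat.cast_le]
    refine Nat.card_le_card_of_injective (fun x => ⟨x.1, fun hg => ?_⟩) ?_
    · obtain ⟨U, v, hU, hv, T, hT⟩ := x.2
      exact hT (Pool.Agent.N993.WT.t_sub _ _ _ (dr_of_pf hD hN hc x₀ U v (fun j => (hU j).1)
        (fun t => (hv t).1) lam (fun j => (hU j).2) (fun t => (hv t).2) μ hμ hℓ x.1
        (pf_transfer hc x₀ b₀ a₀ U v x.1 μ hg)) T)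
    · intro x y hxy
      simp only [Subtype.mk.injEq] at hxy
      exact Subtype.ext hxy
  refine h2.trans ?_
  rw [div_mul_eq_mul_div, le_div_iff₀ hp]
  exact h1

end Pool.Agent.N993.WU
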