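import Pool.Agent.N993.WT.Defs

set_option autoImplicit false

/-!
Presentations with relators `U_j ∏_k g_jk v_jk g_jk⁻¹`, `U_j`, `v_jk` arbitrary words.
-/

namespace Pool.Agent.N993.WU

open Pool.Agent.N993.WT (flip SphericalDiagram DR RW Gen word)

/-- The word is nonempty and cyclically reduced: no letter is followed by its inverse, and the
first letter is not the inverse of the last one. -/
def CR {X : Type} (w : List (X × Bool)) : Prop :=
  0 < w.length ∧ (∀ i (h : i + 1 < w.length), w[i + 1] ≠ flip (w[i]'(by omega))) ∧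
    ∀ h : 0 < w.length, w[0] ≠ flip (w[w.length - 1]'(by omega))

/-- a word in the generators `x_i`, as a word in all the generators -/
def emb {n m : ℕ} {c : Fin m → ℕ} (w : List (Fin n × Bool)) : List (Gen n c × Bool) :=
  w.map fun y => (Sum.inl y.1, y.2)

/-- The relators. The relator `Sum.inl j` is the word `U_j ∏ (k < c j) s_(j,k) v_(j,k) s_(j,k)⁻¹`, and
the relator `Sum.inr t` is `s_t⁻¹ g_t`: so the product of `U_j` and of the conjugates of `v_(j,k)` by
`g_(j,k)` is made trivial. -/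
def rel {n m : ℕ} {c : Fin m → ℕ} (U : Fin m → List (Fin n × Bool))
    (v : ((j : Fin m) × Fin (c j)) → List (Fin n × Bool))
    {ℓ : ((j : Fin m) × Fin (c j)) → ℕ} (g : ∀ t, RW n (ℓ t)) :
    Fin m ⊕ ((j : Fin m) × Fin (c j)) → List (Gen n c × Bool)
  | Sum.inl j => emb (U j) ++ (List.ofFn fun k : Fin (c j) =>
      [(Sum.inr ⟨j, k⟩, true)] ++ emb (v ⟨j, k⟩) ++ [(Sum.inr ⟨j, k⟩, false)]).flatten
  | Sum.inr t => (Sum.inr t, false) :: List.ofFn fun i => (Sum.inl ((g t).1 i).1, ((g t).1 i).2)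

/-! ### internal notions -/

/-- data of the internal form -/
structure Dat (V J S : Type) where
  c : J → ℕ
  st : J → ℕ → S
  ℓ : S → ℕ
  g : S → ℕ → V × Bool
  lu : J → ℕ
  u : J → ℕ → V × Bool
  lv : S → ℕ
  v : S → ℕ → V × Bool

/-- The sides of the oriented 2-cells (`τ = true`: read forwards, `τ = false`: backwards).
Polygon `j`: `uu j τ i` for `i < lu j`, then `up j τ k`, `vv j τ k i` (`i < lv`), `dn j τ k` for
`k = 0, …, c j - 1`, in the order in which they are read; roof `s`: `st s τ` and then `lt s τ i`,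
`i = 0, …, ℓ s - 1`, in the order in which they are read. -/
inductive Side (J S : Type) where
  | uu (j : J) (τ : Bool) (i : ℕ)
  | up (j : J) (τ : Bool) (k : ℕ)
  | vv (j : J) (τ : Bool) (k i : ℕ)
  | dn (j : J) (τ : Bool) (k : ℕ)
  | st (s : S) (τ : Bool)
  | lt (s : S) (τ : Bool) (i : ℕ)

/-- the `i`-th letter of the word `w` of length `l` (`τ = true`) or of its inverse (`τ = false`) -/
def ow {V : Type} (w : ℕ → V × Bool) (l : ℕ) (τ : Bool) (i : ℕ) : V × Bool :=
  if τ then w i else flip (w (l - 1 - i))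

namespace Dat

variable {V J S : Type} (A : Dat V J S)

/-- the `k`-th stable letter of the polygon `j` read in direction `τ` -/
def kap (j : J) (τ : Bool) (k : ℕ) : S := A.st j (if τ then k else A.c j - 1 - k)

/-- the `i`-th letter of the word `g s` (`τ = true`) or of its inverse (`τ = false`) -/
def wd (s : S) (τ : Bool) (i : ℕ) : V × Bool := ow (A.g s) (A.ℓ s) τ i

/-- next side -/
def nx : Side J S → Side J S
  | .uu j τ i => if i + 1 < A.lu j then .uu j τ (i + 1) else .up j τ 0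
  | .up j τ k => .vv j τ k 0
  | .vv j τ k i => if i + 1 < A.lv (A.kap j τ k) then .vv j τ k (i + 1) else .dn j τ k
  | .dn j τ k => if k + 1 < A.c j then .up j τ (k + 1) else .uu j τ 0
  | .st s τ => .lt s τ 0
  | .lt s τ i => if i + 1 < A.ℓ s then .lt s τ (i + 1) else .st s τ

/-- the letter read along a side -/
def letter : Side J S → (V ⊕ S) × Bool
  | .uu j τ i => (Sum.inl (ow (A.u j) (A.lu j) τ i).1, (ow (A.u j) (A.lu j) τ i).2)
  | .up j τ k => (Sum.inr (A.kap j τ k), true)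
  | .vv j τ k i => (Sum.inl (ow (A.v (A.kap j τ k)) (A.lv (A.kap j τ k)) τ i).1,
      (ow (A.v (A.kap j τ k)) (A.lv (A.kap j τ k)) τ i).2)
  | .dn j τ k => (Sum.inr (A.kap j τ k), false)
  | .st s τ => (Sum.inr s, !τ)
  | .lt s τ i => (Sum.inl (A.wd s τ i).1, (A.wd s τ i).2)

/-- the same side of the same 2-cell, read in the opposite direction -/
def mirror : Side J S → Side J S
  | .uu j τ i => .uu j (!τ) (A.lu j - 1 - i)
  | .up j τ k => .dn j (!τ) (A.c j - 1 - k)
  | .vv j τ k i => .vv j (!τ) (A.c j - 1 - k) (A.lv (A.kap j τ k) - 1 - i)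
  | .dn j τ k => .up j (!τ) (A.c j - 1 - k)
  | .st s τ => .st s (!τ)
  | .lt s τ i => .lt s (!τ) (A.ℓ s - 1 - i)

/-- admissible indices -/
def Valid : Side J S → Prop
  | .uu j _ i => i < A.lu j
  | .up j _ k => k < A.c j
  | .vv j τ k i => k < A.c j ∧ i < A.lv (A.kap j τ k)
  | .dn j _ k => k < A.c j
  | .st _ _ => True
  | .lt s _ i => i < A.ℓ s

/-- the previous `x`-side around the periodic boundary of a union of polygons -/
def pp : Side J S → Side J S
  | .uu j τ i => .uu j τ (if i = 0 then A.lu j - 1 else i - 1)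
  | .vv j τ k i => .vv j τ k (if i = 0 then A.lv (A.kap j τ k) - 1 else i - 1)
  | x => x

/-- basic hypotheses -/
structure Good : Prop where
  c_pos : ∀ j, 0 < A.c j
  ℓ_pos : ∀ s, 0 < A.ℓ s
  lu_pos : ∀ j, 0 < A.lu j
  lv_pos : ∀ s, 0 < A.lv s
  st_inj : ∀ j k j' k', k < A.c j → k' < A.c j' → A.st j k = A.st j' k' → j = j' ∧ k = k'
  red : ∀ s i, i + 1 < A.ℓ s → A.g s (i + 1) ≠ flip (A.g s i)
  redu : ∀ j i, i + 1 < A.lu j → A.u j (i + 1) ≠ flip (A.u j i)
  cycu : ∀ j, A.u j 0 ≠ flip (A.u j (A.lu j - 1))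
  redv : ∀ s i, i + 1 < A.lv s → A.v s (i + 1) ≠ flip (A.v s i)
  cycv : ∀ s, A.v s 0 ≠ flip (A.v s (A.lv s - 1))

/-- no two different places of the words `g s` and their inverses have the same subwords of
length `μ` -/
def PF (μ : ℕ) : Prop := ∀ s τ i s' τ' i', i + μ ≤ A.ℓ s → i' + μ ≤ A.ℓ s' →
  (s, τ, i) ≠ (s', τ', i') → ∃ t < μ, A.wd s τ (i + t) ≠ A.wd s' τ' (i' + t)

/-- the words `u j` and `v s` have length at most `lam` -/
def Short (lam : ℕ) : Prop := (∀ j, A.lu j ≤ lam) ∧ ∀ s, A.lv s ≤ lam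

end Dat

/-- sides labelled by a generator `x` -/
def IsX {J S : Type} : Side J S → Prop
  | .uu _ _ _ => True
  | .vv _ _ _ _ => True
  | .lt _ _ _ => True
  | _ => False

/-- the side of a roof labelled by a stable letter -/
def IsSt {J S : Type} : Side J S → Prop
  | .st _ _ => True
  | _ => False

/-- the first side of a polygon -/
def IsBase {J S : Type} : Side J S → Prop
  | .uu _ _ i => i = 0
  | _ => False

/-- sides of polygons labelled by a generator `x` -/
def IsQ {J S : Type} : Side J S → Prop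
  | .uu _ _ _ => True
  | .vv _ _ _ _ => True
  | _ => False

/-- a reduced spherical diagram in internal form -/
structure ND {V J S : Type} (A : Dat V J S) where
  D : Type
  finD : Finite D
  nxt : Equiv.Perm D
  opp : Equiv.Perm D
  opp_opp : ∀ d, opp (opp d) = d
  ty : D → Side J S
  valid : ∀ d, A.Valid (ty d)
  ty_nxt : ∀ d, ty (nxt d) = A.nx (ty d)
  letter_opp : ∀ d, A.letter (ty (opp d)) = flip (A.letter (ty d))
  red : ∀ d, ty (opp d) ≠ A.mirror (ty d)

namespace ND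

variable {V J S : Type} {A : Dat V J S} (N : ND A)

/-- rotation around the starting point -/
def σ : Equiv.Perm N.D := N.nxt.symm.trans N.opp

/-- the vertices -/
def Vtx : Type := Quotient (Equiv.Perm.SameCycle.setoid N.σ)

/-- the Euler characteristic is (at least) two: `2V + 2F = 2E + 4`; every face has exactly one side
of type `uu _ _ 0` or `st` -/
def Euler : Prop := Nat.card N.D + 4 ≤
  2 * Nat.card N.Vtx + 2 * Nat.card {d : N.D // IsBase (N.ty d) ∨ IsSt (N.ty d)}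

/-- there is a third `x`-dart at the starting point of `d`, besides `d` and `σ d` -/
def BR (d : N.D) : Prop := ∃ y, IsX (N.ty y) ∧ N.σ.SameCycle d y ∧ y ≠ d ∧ y ≠ N.σ d

end ND

/-! ### the statements of the leaves -/

/-- rotating around a vertex from a side `up j τ k` -/
def S_DOWN : Prop := ∀ (V J S : Type) (A : Dat V J S) (N : ND A), A.Good → ∀ (j : J) (τ : Bool) (k : ℕ)
  (d : N.D), N.ty d = .up j τ k → ∃ r : ℕ, (∀ i ≤ r, ¬ IsX (N.ty ((N.σ ^ i) d))) ∧
    IsX (N.ty ((N.σ ^ (r + 1)) d)) ∧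
    (N.ty (N.opp ((N.σ ^ (r + 1)) d)) = .uu j τ (A.lu j - 1) ∨
      (IsSt (N.ty ((N.σ ^ r) d)) ∧ ∃ s τ' i, N.ty (N.opp ((N.σ ^ (r + 1)) d)) = .lt s τ' i))

/-- every vertex has an `x`-dart; if it has only one then a roof has its stable side there -/
def S_DEG : Prop := ∀ (V J S : Type) (A : Dat V J S) (N : ND A), A.Good →
  (∀ d : N.D, ∃ y, N.σ.SameCycle d y ∧ IsX (N.ty y)) ∧
  (∀ a : N.D, IsX (N.ty a) → (∀ y, N.σ.SameCycle a y → IsX (N.ty y) → y = a) →
    ∃ d, IsSt (N.ty d) ∧ (N.σ.SameCycle a d ∨ N.σ.SameCycle a (N.nxt d))) ∧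
  (∀ d : N.D, ∀ s τ i, N.ty d = .lt s τ (i + 1) → N.σ d ≠ d ∧ IsX (N.ty (N.σ d)))

/-- the `x`-sides of polygons on the other side of a path run backwards along the period -/
def S_CH : Prop := ∀ (V J S : Type) (A : Dat V J S) (N : ND A), A.Good → ∀ (d : N.D) (r : ℕ),
  IsX (N.ty d) → (∀ i, 0 < i → i ≤ r → ¬ IsX (N.ty ((N.σ ^ i) d))) → IsX (N.ty ((N.σ ^ (r + 1)) d)) →
  IsQ (N.ty d) → IsQ (N.ty (N.opp ((N.σ ^ (r + 1)) d))) →
  N.ty (N.opp ((N.σ ^ (r + 1)) d)) = A.pp (N.ty d)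

/-- the window lemma -/
def S_WIN : Prop := ∀ (V J S : Type) (A : Dat V J S) (N : ND A), A.Good → ∀ μ lam : ℕ, 1 ≤ μ → A.PF μ →
  A.Short lam → (∀ s, μ ≤ A.ℓ s) → ∀ (d : N.D) (s : S) (τ : Bool) (i : ℕ), N.ty d = .lt s τ i →
    i + (3 * μ + lam + 2) ≤ A.ℓ s → ∃ k, 1 ≤ k ∧ k < 3 * μ + lam + 2 ∧ N.BR ((N.nxt ^ k) d)

/-- discharging: no reduced spherical diagrams in internal form -/
def S_DIS : Prop := ∀ (V J S : Type) (A : Dat V J S) (N : ND A), A.Good → ∀ μ lam : ℕ, 1 ≤ μ → A.PF μ →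
  A.Short lam → (∀ s, 9 * (3 * μ + lam + 2) ≤ A.ℓ s) → ¬ N.Euler

/-- the internal data of a family of words -/
noncomputable def dat {n m : ℕ} {c : Fin m → ℕ} (hc : ∀ j, 0 < c j) (x₀ : Fin n × Bool)
    (U : Fin m → List (Fin n × Bool)) (v : ((j : Fin m) × Fin (c j)) → List (Fin n × Bool))
    {ℓ : ((j : Fin m) × Fin (c j)) → ℕ} (g : ∀ t, RW n (ℓ t)) :
    Dat (Fin n) (Fin m) ((j : Fin m) × Fin (c j)) where
  c := c
  st := fun j k => ⟨j, ⟨k % c j, Nat.mod_lt _ (hc j)⟩⟩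
  ℓ := ℓ
  g := fun t i => if h : i < ℓ t then (g t).1 ⟨i, h⟩ else x₀
  lu := fun j => (U j).length
  u := fun j i => (U j).getD i x₀
  lv := fun t => (v t).length
  v := fun t i => (v t).getD i x₀

/-- from reduced spherical diagrams to the internal form -/
def S_NORM : Prop := ∀ (n m : ℕ) (c : Fin m → ℕ) (hc : ∀ j, 0 < c j) (x₀ : Fin n × Bool)
  (U : Fin m → List (Fin n × Bool)) (v : ((j : Fin m) × Fin (c j)) → List (Fin n × Bool))
  (_ : ∀ j, CR (U j)) (_ : ∀ t, CR (v t)) (ℓ : ((j : Fin m) × Fin (c j)) → ℕ)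
  (_ : ∀ t, 0 < ℓ t) (g : ∀ t, RW n (ℓ t)) (D : SphericalDiagram (rel U v g)), D.Reduced →
    ∃ N : ND (dat hc x₀ U v g), N.Euler

/-- killing `W` -/
def S_TRIV : Prop := ∀ (n m : ℕ) (c : Fin m → ℕ) (W : FreeGroup (Fin n))
  (U : Fin m → List (Fin n × Bool))
  (v : ((j : Fin m) × Fin (c j)) → List (Fin n × Bool)) (ℓ : ((j : Fin m) × Fin (c j)) → ℕ)
  (g : ∀ t, RW n (ℓ t)),
  (∀ j k, word (v ⟨j, k⟩) ∈ Subgroup.normalClosure ({W} ∪ {x | ∃ i < j, x = word (U i)})) →
  Subgroup.normalClosure ({W} ∪ Set.range fun i => word (U i)) = ⊤ →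
  ∀ z : PresentedGroup (Set.range (fun e => word (rel U v g e)) ∪
    {(FreeGroup.map Sum.inl W : FreeGroup (Gen n c))}), z = 1

end Pool.Agent.N993.WU
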