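import Pool.Agent.N993.WU.Rep
import Pool.Agent.N564.WU.DOWN
import Pool.Agent.N971.WU.DEG
import Pool.Agent.N667.WU.CH
import Pool.Agent.N286.WU.WIN
import Pool.Agent.N402.WU.DIS
import Pool.Agent.N614.WU.TRIV
import Pool.Agent.N398.WU.NORM

set_option autoImplicit false

namespace Pool.Agent.N993.WU

theorem s_deg : S_DEG := Pool.Agent.N971.WU.DEG.t_deg Pool.Agent.N564.WU.t_down

theorem s_dis : S_DIS :=
  Pool.Agent.N402.WU.t_dis s_deg
    (Pool.Agent.N286.WU.WIN.t_win s_deg (Pool.Agent.N667.WU.t_ch Pool.Agent.N564.WU.t_down))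

theorem s_norm : S_NORM := Pool.Agent.N398.WUN.t_NORM

theorem s_triv : S_TRIV := Pool.Agent.N614.WU.t_TRIV

end Pool.Agent.N993.WU
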